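import Pool.Agent.Helper22.PT.Main

set_option autoImplicit false

/-!
# The structure of a counterexample to Q1

`T` is a theory in a countable language, `Φ` a countable disjunction of partial types over `∅` in
one variable, `M` a countable model of `T` and `Q = Φ(M)`.  Let `K_Q` be the class of the countable
models `N` of `T` with `Φ(N) = Q` (that is, there is an elementary bijection `Q → Φ(N)`), and suppose
that up to isomorphism it has fewer than continuum many members.

If there are uncountably many good `Q`-pseudotypes, there is `N ∈ K_Q` such that every finite tuple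
`a` of elements of `N` is contained in an elementary substructure `A` of `N` which does not contain
`Φ(N)` and such that `(A, b)` and `(N, b)` are isomorphic for every finite tuple `b` of elements of
`A` (so `A` is an `L_∞ω`-elementary substructure).  Hence `Φ(N)`, with the structure induced over
`a`, has a proper `L_∞ω`-elementary substructure.

In particular Q1 holds at `Q` if `Q` has no proper `L_∞ω`-elementary substructure, for example if
the group of the elementary permutations of `Q` has a complete left-invariant metric.
-/

namespace Pool.Agent.Results.MP_91ff68_lc.ProperSubstructures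

open FirstOrder Language Cardinal Pool.Agent.Helper85.VC Pool.Agent.Helper22.PT

theorem result (L : FirstOrder.Language.{0, 0}) [Countable L.Symbols] (T : L.Theory)
    (Φ : ℕ → Set (L.Formula (Fin 1))) (M : CModel T) :
    numK Φ M ≤ numModels T ∧
    (numK Φ M < 𝔠 → ¬ Countable (GoodPseudotype Φ M) →
      ∃ N : KQ Φ M, ∀ (n : ℕ) (a : Fin n → N.mod),
        (∃ A : L.ElementarySubstructure N.mod, (∀ i, a i ∈ A) ∧
          ¬ (sol Φ N.mod ⊆ (A : Set N.mod)) ∧
          ∀ (m : ℕ) (b : Fin m → A), ∃ g : A ≃[L] N.mod,
            ∀ i, g (b i) = ((b i : A) : N.mod)) ∧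
        ¬ NoProper L a (sol Φ N.mod)) ∧
    (numK Φ M < 𝔠 → NoProper L (emp M) (sol Φ M) → Countable (GoodPseudotype Φ M)) ∧
    (∀ (N : Type) [L.Structure N] [Countable N] (n : ℕ) (a : Fin n → N) (X : Set N),
      Cli (AutOver L a X) → NoProper L a X) := by
  refine ⟨numK_le Φ M, fun hfew hunc => ?_, countable_of_noProper,
    fun N _ _ n a X => noProper_of_cli a X⟩
  obtain ⟨N, hN⟩ := structure_all hfew hunc
  refine ⟨N, fun n a => ⟨hN n a, ?_⟩⟩
  obtain ⟨A, ha, hA, hb⟩ := hN n a
  exact not_noProper A a ha hA hb

end Pool.Agent.Results.MP_91ff68_lc.ProperSubstructures
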