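import Pool.Agent.Helper85.VC.Main

set_option autoImplicit false

/-!
# The assertion of Q1 is equivalent to Vaught's conjecture

We show that the following are equivalent.

1. `VaughtConjecture`: a complete theory in a countable language with fewer than `2 ^ ℵ₀` countable
   models has at most `ℵ₀` of them.
2. `Q1`: for every complete theory `T` in a countable language with few countable models, every
   countable disjunction `Φ` of partial types over `∅` (in sorts of `T^eq`) and every countable
   model `M` of `T`, the set of good `Φ(M)`-pseudotypes is countable.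
3. `Q1Pure`: the same for a single formula `φ(x)` with `T ↾ φ` the theory of a pure infinite set,
   and only for pseudotypes of single elements.

Given a counterexample `T₀` to Vaught's conjecture one considers the structures with sorts `M`,
`P`, `Q`, where `M` is a countable model of `T₀`, and a generic function `P × Q → M`.  They are
determined up to isomorphism by `M` (back and forth); the set of their complete theories is closed
in the Cantor space, hence countable (perfect set theorem), so one of these complete theories, `T`,
has uncountably many, but fewer than `2 ^ ℵ₀` countable models.  The sort `Q` is a pure set, and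
the type over `Q` of an element of `P` determines `M` up to isomorphism.
-/

namespace Pool.Agent.Results.MP_91ff68_lc.VaughtEquivalence

open FirstOrder Language Cardinal
open Pool.Agent.Helper85.VC (CModel Imag)

variable {L : FirstOrder.Language.{0, 0}}

/-- `I(T, ℵ₀)`: the number of countable models of `T` up to isomorphism. -/
noncomputable def numModels (T : L.Theory) : Cardinal.{1} :=
  #(Quot fun M N : CModel T => Nonempty (M ≃[L] N))

/-- Vaught's conjecture: a complete theory in a countable language with fewer than continuum
many countable models has at most `ℵ₀` of them. -/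
def VaughtConjecture : Prop :=
  ∀ (L : FirstOrder.Language.{0, 0}) [Countable L.Symbols] (T : L.Theory), T.IsComplete →
    numModels T < 𝔠 → numModels T ≤ ℵ₀

/-- `θ` is a formula about representatives of imaginary elements `v a`, `a : α`, the variable
`(a, j)` standing for the `j`-th coordinate of a representative of `v a`; it is realised at `v` if
it holds for some choice of representatives.  (If `θ` does not depend on the choice of
representatives this is its truth value; every formula of `T^eq` is equivalent to such a `θ`.) -/
def RealizeEq {M : Type} [L.Structure M] {α : Type} (θ : L.Formula (α × ℕ)) (v : α → Imag L M) :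
    Prop :=
  ∃ r : α → ℕ → M, (∀ a, r a ∈ (v a).cls) ∧ θ.Realize (fun x => r x.1 x.2)

/-- A countable disjunction `Φ` of partial types over `∅`: the `i`-th one consists of a sort
`(Φ i).1` and a set `(Φ i).2` of formulas about representatives of an element of this sort. -/
abbrev Disj (L : FirstOrder.Language.{0, 0}) : Type :=
  ℕ → L.Formula (ℕ ⊕ ℕ) × Set (L.Formula ℕ)

/-- `Φ(M) ⊆ M^eq`. -/
def solEq (Φ : Disj L) (M : Type) [L.Structure M] : Set (Imag L M) :=
  {x | ∃ i, x.sort = (Φ i).1 ∧ ∀ θ ∈ (Φ i).2, ∃ r ∈ x.cls, θ.Realize r}

/-- The bijection `e : X → Y` between a subset of `M^eq` and a subset of `N^eq` is elementary. -/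
def ElemEq {M N : Type} [L.Structure M] [L.Structure N] {X : Set (Imag L M)} {Y : Set (Imag L N)}
    (e : X ≃ Y) : Prop :=
  (∀ x, (e x).1.sort = x.1.sort) ∧
    ∀ θ : L.Formula (X × ℕ), RealizeEq θ (fun x => x.1) ↔ RealizeEq θ (fun x => (e x).1)

/-- The candidates for a `k`-type over the set `X`: sorts and a set of formulas. -/
abbrev TypeEq (L : FirstOrder.Language.{0, 0}) (k : ℕ) (X : Type) : Type :=
  (Fin k → L.Formula (ℕ ⊕ ℕ)) × Set (L.Formula ((Fin k ⊕ X) × ℕ))

/-- The type over `X` of the finite tuple `a` of `N^eq`, where `X` (a subset of `M^eq`) is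
identified with a subset of `N^eq` through the bijection `e`: the sorts of the elements of `a`
together with the set of formulas realised at `a`. -/
def tpEq {M N : Type} [L.Structure M] [L.Structure N] {X : Set (Imag L M)} {Y : Set (Imag L N)}
    (e : X ≃ Y) {k : ℕ} (a : Fin k → Imag L N) : TypeEq L k X :=
  (fun i => (a i).sort, {θ | RealizeEq θ (Sum.elim a (fun x => (e x).1))})

/-- `p` is a good `k`-type over `Q = Φ(M)`: it is the type over `Q` of a `k`-tuple of elements of
`N^eq` for a countable model `N` of `T` with `Φ(N) = Q`, the last equality meaning that `Q` is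
identified with `Φ(N)` through an elementary bijection. -/
def IsGoodEq {T : L.Theory} (Φ : Disj L) (M : CModel T) (k : ℕ) (p : TypeEq L k (solEq Φ M)) :
    Prop :=
  ∃ (N : CModel T) (e : solEq Φ M ≃ solEq Φ N) (a : Fin k → Imag L N), ElemEq e ∧ p = tpEq e a

/-- The relation `p ∼ q`: some elementary permutation of `Q` carries `p` to `q`. -/
def SimEq {T : L.Theory} (Φ : Disj L) (M : CModel T) (k : ℕ) (p q : TypeEq L k (solEq Φ M)) :
    Prop :=
  ∃ σ : Equiv.Perm (solEq Φ M), ElemEq σ ∧ p.1 = q.1 ∧
    ∀ θ : L.Formula ((Fin k ⊕ solEq Φ M) × ℕ), θ ∈ p.2 ↔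
      θ.relabel (Prod.map (Sum.map id σ) id) ∈ q.2

/-- The assertion of Q1: for a complete theory `T` with few countable models, every countable
disjunction `Φ` of partial types over `∅` (in sorts of `T^eq`) and every countable model `M` of
`T` there are only countably many good `Φ(M)`-pseudotypes (classes of good types). -/
def Q1 : Prop :=
  ∀ (L : FirstOrder.Language.{0, 0}) [Countable L.Symbols] (T : L.Theory), T.IsComplete →
    numModels T < 𝔠 → ∀ (Φ : Disj L) (M : CModel T),
      Countable (Σ k, Quot fun p q : {p // IsGoodEq Φ M k p} => SimEq Φ M k p.1 q.1)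

/-- `Φ(M)` for `Φ = ⋁ i, Φ i`, a countable disjunction of partial types `Φ i` over `∅` in the home
sort. -/
def sol (Φ : ℕ → Set (L.Formula (Fin 1))) (M : Type) [L.Structure M] : Set M :=
  {a | ∃ i, ∀ φ ∈ Φ i, φ.Realize (fun _ => a)}

/-- The bijection `e : X → Y` between a subset of the structure `M` and a subset of the
structure `N` is elementary. -/
def Elem (L : FirstOrder.Language.{0, 0}) {M N : Type} [L.Structure M] [L.Structure N] {X : Set M}
    {Y : Set N} (e : X ≃ Y) : Prop :=
  ∀ φ : L.Formula X, φ.Realize (fun x => (x : M)) ↔ φ.Realize (fun x => (e x : N))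

/-- The type over `X` of the finite tuple `a` of `N`, where `X` (a subset of `M`) is identified
with the subset `Y` of `N` through the bijection `e`. -/
def tp (L : FirstOrder.Language.{0, 0}) {M N : Type} [L.Structure N] {X : Set M} {Y : Set N}
    (e : X ≃ Y) {k : ℕ} (a : Fin k → N) : Set (L.Formula (Fin k ⊕ X)) :=
  {φ | φ.Realize (Sum.elim a (fun x => (e x : N)))}

/-- `p` is a good `k`-type over `Q = Φ(M)`: it is the type over `Q` of a `k`-tuple of a countable
model `N` of `T` with `Φ(N) = Q`, the last equality meaning that `Q` is identified with `Φ(N)`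
through an elementary bijection. -/
def IsGood {T : L.Theory} (Φ : ℕ → Set (L.Formula (Fin 1))) (M : CModel T) (k : ℕ)
    (p : Set (L.Formula (Fin k ⊕ sol Φ M))) : Prop :=
  ∃ (N : CModel T) (e : sol Φ M ≃ sol Φ N) (a : Fin k → N), Elem L e ∧ p = tp L e a

/-- The relation `p ∼ q`: some elementary permutation of `Q` carries `p` to `q`. -/
def Sim {T : L.Theory} (Φ : ℕ → Set (L.Formula (Fin 1))) (M : CModel T) (k : ℕ)
    (p q : Set (L.Formula (Fin k ⊕ sol Φ M))) : Prop :=
  ∃ σ : Equiv.Perm (sol Φ M), Elem L σ ∧
    ∀ φ : L.Formula (Fin k ⊕ sol Φ M), φ ∈ p ↔ φ.relabel (Sum.map id σ) ∈ q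

/-- The assertion of Q1 restricted to a single formula `φ(x)` such that `T ↾ φ` is the theory of a
pure infinite set (in every countable model `M` of `T` the set `φ(M)` is infinite and each of its
permutations is an elementary map) and to pseudotypes of single elements: if `T` has few countable
models, there are only countably many good `φ(M)`-pseudotypes of single elements. -/
def Q1Pure : Prop :=
  ∀ (L : FirstOrder.Language.{0, 0}) [Countable L.Symbols] (T : L.Theory), T.IsComplete →
    numModels T < 𝔠 → ∀ φ : L.Formula (Fin 1),
      (∀ M : CModel T, (sol (fun _ => {φ}) M).Infinite ∧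
        ∀ σ : Equiv.Perm (sol (fun _ => {φ}) M), Elem L σ) →
      ∀ M : CModel T, Countable (Quot fun p q : {p // IsGood (fun _ => {φ}) M 1 p} =>
        Sim (fun _ => {φ}) M 1 p.1 q.1)

theorem result : List.TFAE [VaughtConjecture, Q1, Q1Pure] := Pool.Agent.Helper85.VC.main

end Pool.Agent.Results.MP_91ff68_lc.VaughtEquivalence
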